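import Mathlib

set_option autoImplicit false

/-!
# Rainbow matchings in bipartite graphs of bounded maximum degree: a disproof

For every `d > 1`, every `q ≥ 2` and every `s ≥ d` we construct `k = q * s` graphs
`F 0, ..., F (k - 1)` on `2 * k` vertices, all bipartite with respect to one common bipartition
into two classes of size `k`, of maximum degree at most `d` and with more than `(k - 1) * d` edges
each, that have no rainbow matching.
-/

namespace Pool.Agent.Results.MP_3ec6a8_co.CosetCounterexample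

/-- One side of the vertex set. -/
abbrev Side (q s : ℕ) : Type := ZMod q × ZMod s

/-- Adjacency between a left vertex and a right vertex, with block shift `c`. -/
def rel (q s d : ℕ) (c : ZMod q) (x y : Side q s) : Prop :=
  y.1 = x.1 + c ∧ (y.2 - x.2).val < d

/-- The bipartite graph with block shift `c`. -/
def gr (q s d : ℕ) (c : ZMod q) : SimpleGraph (Side q s ⊕ Side q s) where
  Adj u v := (∃ x y, u = Sum.inl x ∧ v = Sum.inr y ∧ rel q s d c x y) ∨
    (∃ x y, v = Sum.inl x ∧ u = Sum.inr y ∧ rel q s d c x y)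
  symm := ⟨by
    intro u v h
    rcases h with h | h
    · exact Or.inr h
    · exact Or.inl h⟩
  loopless := ⟨by
    intro u h
    rcases h with ⟨x, y, h1, h2, _⟩ | ⟨x, y, h1, h2, _⟩
    · rw [h1] at h2; exact absurd h2 (by simp)
    · rw [h1] at h2; exact absurd h2 (by simp)⟩

lemma gr_degree (q s d : ℕ) (hs : 0 < s) (c : ZMod q) (v : Side q s ⊕ Side q s) :
    ((gr q s d c).neighborSet v).ncard ≤ d := by
  haveI : NeZero s := ⟨hs.ne'⟩
  rcases v with x | y
  · have hsub : (gr q s d c).neighborSet (Sum.inl x) ⊆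
        ((fun t : ℕ => (Sum.inr (x.1 + c, x.2 + (t : ZMod s)) : Side q s ⊕ Side q s)) ''
          (Finset.range d : Set ℕ)) := by
      intro w hw
      rcases hw with ⟨x', y, h1, h2, h3, h4⟩ | ⟨x', y, h1, h2, _⟩
      · obtain rfl := Sum.inl_injective h1
        refine ⟨(y.2 - x.2).val, by simpa using h4, ?_⟩
        simp only [h2]
        congr 1
        apply Prod.ext
        · simp [h3]
        · simp [ZMod.natCast_zmod_val]
      · exact absurd h2 (by simp)
    calc ((gr q s d c).neighborSet (Sum.inl x)).ncard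
        ≤ _ := Set.ncard_le_ncard hsub ((Finset.finite_toSet _).image _)
      _ ≤ (Finset.range d : Set ℕ).ncard := Set.ncard_image_le (Finset.finite_toSet _)
      _ = d := by rw [Set.ncard_coe_finset, Finset.card_range]
  · have hsub : (gr q s d c).neighborSet (Sum.inr y) ⊆
        ((fun t : ℕ => (Sum.inl (y.1 - c, y.2 - (t : ZMod s)) : Side q s ⊕ Side q s)) ''
          (Finset.range d : Set ℕ)) := by
      intro w hw
      rcases hw with ⟨x, y', h1, h2, _⟩ | ⟨x, y', h1, h2, h3, h4⟩
      · exact absurd h1 (by simp)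
      · obtain rfl := Sum.inr_injective h2
        refine ⟨(y.2 - x.2).val, by simpa using h4, ?_⟩
        simp only [h1]
        congr 1
        apply Prod.ext
        · simp [h3]
        · simp [ZMod.natCast_zmod_val]
    calc ((gr q s d c).neighborSet (Sum.inr y)).ncard
        ≤ _ := Set.ncard_le_ncard hsub ((Finset.finite_toSet _).image _)
      _ ≤ (Finset.range d : Set ℕ).ncard := Set.ncard_image_le (Finset.finite_toSet _)
      _ = d := by rw [Set.ncard_coe_finset, Finset.card_range]

lemma gr_edges (q s d : ℕ) (hq : 0 < q) (hs : 0 < s) (hds : d ≤ s) (c : ZMod q) :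
    q * s * d ≤ (gr q s d c).edgeSet.ncard := by
  haveI : NeZero s := ⟨hs.ne'⟩
  haveI : NeZero q := ⟨hq.ne'⟩
  classical
  let f : (Side q s) × Fin d → Sym2 (Side q s ⊕ Side q s) := fun p =>
    s(Sum.inl p.1, Sum.inr (p.1.1 + c, p.1.2 + ((p.2 : ℕ) : ZMod s)))
  have hf : Function.Injective f := by
    rintro ⟨x, t⟩ ⟨x', t'⟩ h
    simp only [f, Sym2.eq_iff, Sum.inl.injEq, Sum.inr.injEq, Prod.mk.injEq, reduceCtorEq,
      and_false, or_false, false_and] at h
    obtain ⟨h1, _, h2⟩ := h
    subst h1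
    have h3 : ((t : ℕ) : ZMod s) = ((t' : ℕ) : ZMod s) := add_left_cancel h2
    have h4 : (t : ℕ) = (t' : ℕ) := by
      have := congrArg ZMod.val h3
      rwa [ZMod.val_natCast_of_lt (lt_of_lt_of_le t.2 hds),
        ZMod.val_natCast_of_lt (lt_of_lt_of_le t'.2 hds)] at this
    rw [Prod.mk.injEq]
    exact ⟨rfl, Fin.ext h4⟩
  have hsub : Set.range f ⊆ (gr q s d c).edgeSet := by
    rintro _ ⟨⟨x, t⟩, rfl⟩
    simp only [f, SimpleGraph.mem_edgeSet]
    refine Or.inl ⟨x, _, rfl, rfl, rfl, ?_⟩
    simp only [add_sub_cancel_left]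
    rw [ZMod.val_natCast_of_lt (lt_of_lt_of_le t.2 hds)]
    exact t.2
  have hcard : (Set.range f).ncard = q * s * d := by
    rw [← Set.image_univ, Set.ncard_image_of_injective _ hf, Set.ncard_univ]
    simp [Nat.card_prod, Nat.card_zmod]
  rw [← hcard]
  exact Set.ncard_le_ncard hsub (Set.toFinite _)

/-- The family: the graph with index `0` has block shift `1`, the others have block shift `0`. -/
def fam (q s d : ℕ) (i : Fin (q * s)) : SimpleGraph (Side q s ⊕ Side q s) :=
  gr q s d (if (i : ℕ) = 0 then 1 else 0)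

lemma no_rainbow (q s d : ℕ) (hq : 2 ≤ q) (hs : 0 < s) :
    ¬ ∃ e : Fin (q * s) → Sym2 (Side q s ⊕ Side q s),
      (∀ i, e i ∈ (fam q s d i).edgeSet) ∧
      (∀ i j, i ≠ j → ∀ v, v ∈ e i → v ∉ e j) := by
  haveI : NeZero s := ⟨hs.ne'⟩
  haveI : NeZero q := ⟨by omega⟩
  haveI : Fact (1 < q) := ⟨by omega⟩
  rintro ⟨e, he, hdis⟩
  have hex : ∀ i, ∃ x y : Side q s, e i = s(Sum.inl x, Sum.inr y) ∧
      y.1 = x.1 + (if (i : ℕ) = 0 then 1 else 0) := by
    intro i
    have h := he i
    generalize e i = z at h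
    induction z using Sym2.ind with
    | _ u v =>
      rw [SimpleGraph.mem_edgeSet] at h
      rcases h with ⟨x, y, rfl, rfl, h3, _⟩ | ⟨x, y, rfl, rfl, h3, _⟩
      · exact ⟨x, y, rfl, h3⟩
      · exact ⟨x, y, Sym2.eq_swap, h3⟩
  choose l r hlr hsum using hex
  have hl : Function.Injective l := by
    intro i j hij
    by_contra hne
    refine hdis i j hne (Sum.inl (l i)) ?_ ?_
    · rw [hlr i]; simp
    · rw [hlr j, hij]; simp
  have hr : Function.Injective r := by
    intro i j hij
    by_contra hne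
    refine hdis i j hne (Sum.inr (r i)) ?_ ?_
    · rw [hlr i]; simp
    · rw [hlr j, hij]; simp
  have hcard : Fintype.card (Fin (q * s)) = Fintype.card (Side q s) := by
    simp [Fintype.card_prod, ZMod.card]
  have hlb : Function.Bijective l := (Fintype.bijective_iff_injective_and_card l).2 ⟨hl, hcard⟩
  have hrb : Function.Bijective r := (Fintype.bijective_iff_injective_and_card r).2 ⟨hr, hcard⟩
  have h1 : ∑ i, (l i).1 = ∑ z : Side q s, z.1 :=
    hlb.sum_comp (fun z : Side q s => z.1)
  have h2 : ∑ i, (r i).1 = ∑ z : Side q s, z.1 :=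
    hrb.sum_comp (fun z : Side q s => z.1)
  have h3 : ∑ i, (r i).1 = ∑ i, (l i).1 +
      ∑ i : Fin (q * s), (if (i : ℕ) = 0 then (1 : ZMod q) else 0) := by
    rw [← Finset.sum_add_distrib]
    exact Finset.sum_congr rfl fun i _ => hsum i
  have hpos : 0 < q * s := Nat.mul_pos (by omega) hs
  have h4 : ∑ i : Fin (q * s), (if (i : ℕ) = 0 then (1 : ZMod q) else 0) = 1 := by
    rw [Finset.sum_eq_single (⟨0, hpos⟩ : Fin (q * s))]
    · simp
    · intro b _ hb
      rw [if_neg]
      intro h
      exact hb (Fin.ext h)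
    · intro h
      exact absurd (Finset.mem_univ _) h
  rw [h2, h1, h4] at h3
  exact one_ne_zero (left_eq_add.mp h3)

/-- **Disproof.** For every `d > 1`, every `q ≥ 2` and every `s ≥ d`, put `k = q * s`.  There are
a finite vertex set `V` of size `2 * k`, a set `A` of `k` vertices and graphs `F 0, ..., F (k - 1)`
on `V`, all of whose edges join `A` to its complement (one common bipartition), each of maximum
degree at most `d` and with more than `(k - 1) * d` edges, that admit no rainbow matching: there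
are no pairwise vertex-disjoint edges `e 0, ..., e (k - 1)` with `e i` an edge of `F i`. -/
theorem result (d q s : ℕ) (_hd : 1 < d) (hq : 2 ≤ q) (hs : d ≤ s) :
    ∃ (V : Type) (_ : Fintype V) (A : Set V) (F : Fin (q * s) → SimpleGraph V),
      Fintype.card V = 2 * (q * s) ∧ A.ncard = q * s ∧
      (∀ i u v, (F i).Adj u v → (u ∈ A ↔ v ∉ A)) ∧
      (∀ i v, ((F i).neighborSet v).ncard ≤ d) ∧
      (∀ i, (q * s - 1) * d < (F i).edgeSet.ncard) ∧
      ¬ ∃ e : Fin (q * s) → Sym2 V,
        (∀ i, e i ∈ (F i).edgeSet) ∧ (∀ i j, i ≠ j → ∀ v, v ∈ e i → v ∉ e j) := by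
  have hs0 : 0 < s := by omega
  have hq0 : 0 < q := by omega
  haveI : NeZero s := ⟨hs0.ne'⟩
  haveI : NeZero q := ⟨hq0.ne'⟩
  refine ⟨Side q s ⊕ Side q s, inferInstance, Set.range Sum.inl, fam q s d, ?_, ?_, ?_, ?_, ?_, ?_⟩
  · simp [Fintype.card_sum, Fintype.card_prod, ZMod.card]; ring
  · rw [← Set.image_univ, Set.ncard_image_of_injective _ Sum.inl_injective, Set.ncard_univ]
    simp [Nat.card_prod, Nat.card_zmod]
  · intro i u v h
    rcases h with ⟨x, y, rfl, rfl, _⟩ | ⟨x, y, rfl, rfl, _⟩
    · simp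
    · simp
  · intro i v
    exact gr_degree q s d hs0 _ v
  · intro i
    have h1 := gr_edges q s d hq0 hs0 hs (if (i : ℕ) = 0 then 1 else 0)
    have h2 : (q * s - 1) * d < q * s * d := by
      have : q * s - 1 < q * s := Nat.sub_lt (Nat.mul_pos hq0 hs0) one_pos
      exact Nat.mul_lt_mul_of_pos_right this (by omega)
    exact lt_of_lt_of_le h2 h1
  · exact no_rainbow q s d hq hs0

end Pool.Agent.Results.MP_3ec6a8_co.CosetCounterexample
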